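import Pool.Agent.R911.Kn.Geo

open CategoryTheory AlgebraicGeometry

universe u v

namespace Pool.Agent.Results.MP_a60482_ag.KunnethNumbers

open Pool.Agent.H914 VarClass Obj WeilCohomology Pool.Agent.R911.Kn

/-- **The Künneth conjecture is one equality of rational numbers.** Let `X` be a variety of
dimension `n` and `W` a Weil cohomology with coefficients in `K`. For a function `lam` with rational
values on the degrees let `P` be the operator on `H(X)` acting as `lam i` on `H^i(X)`, for instance
`lam i = i - n`, or `lam = 1` in one degree and `0` in the others. Among the `K`-linear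
combinations of algebraic correspondences of degree zero there are operators `w` with
`tr(w a) = tr(P a)` for all algebraic correspondences `a` of degree zero. For all of them
`tr(w ^ 2)` is the same number `κ`, which is rational, and `0 ≤ κ ≤ ∑ i, (lam i) ^ 2 b_i`.

The operator `P` is algebraic if and only if `κ = ∑ i, (lam i) ^ 2 b_i`. If the values of `lam` in
the degrees `0, …, 2 n` are distinct, this equality holds if and only if all Künneth components of
the diagonal are algebraic. -/
theorem result {k : Type u} [Field k] {𝒱 : VarClass k} {ops : CycleOps 𝒱}
    (W : WeilCohomology.{u, v} ops) (X : 𝒱.Obj) (lam : ℕ → ℚ) :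
    ∃ (κ : ℚ) (P : Op W X), IsDiagonal W X lam P ∧ IsTraceNumber W X P κ ∧
      0 ≤ κ ∧ κ ≤ squareSum W X lam ∧ (IsAlgebraicOp W X P ↔ κ = squareSum W X lam) ∧
      (DistinctValues X lam → (KunnethConjecture W X ↔ κ = squareSum W X lam)) :=
  kunneth_numbers lam

end Pool.Agent.Results.MP_a60482_ag.KunnethNumbers
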