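import Pool.Agent.R370.NK.Main

/-!
# MP_a60482_ag: which universal operators are algebraic if and only if conjecture C holds?

Let `W` be a Weil cohomology theory `H` with coefficients in a field `K` of characteristic zero, and
let `P m`, of dimension `m`, have a cohomology like the projective space. A universal operator of
Künneth type is given by a function `F` of two variables with values in `K`: on a variety `X` of
dimension `n` it is the multiplication by `F n i` on `H^i(X)`, for all `i`. Examples are the degree
operator `F n i = i - n`, the projector onto one `H^(n + c)(X)` for all `X`, the truncation of the
cohomology to the degrees `> n`, the sign `(-1)^i`, or the number `q^i` for some `q` in `K`. For each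
`F` there is a conjecture: the operator `F` is algebraic for all varieties. Which ones are
equivalent to Grothendieck's conjecture C, that the Künneth projectors are algebraic?

**Theorem 1.** Let `F` be any function, and let `X` be a variety of dimension `n`. The operator `F`
is algebraic for all the varieties `X × P m` if and only if the projectors onto the sums of the
`H^j(X)` over the classes of the following relation are algebraic: `i ~ j` if `F (n + m)` has the
same value in `i + 2 s` and `j + 2 s`, and in `2 n - i + 2 s` and `2 n - j + 2 s`, for all `m` and
all `s ≤ m`. It is enough to know this for finitely many `m`, which depend only on `F` and `n`.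

**Theorem 2.** If `F n i = f (i - n)` is a function of the weight, let `p` be the nonnegative
generator of the group of periods of `f : ℤ → K`. Then the operator `F` is algebraic for all
`X × P m`, or for finitely many `m` depending only on `f` and `n`, if and only if the conjecture C
modulo `p` is true for `X`: the projectors onto the sums of the `H^j(X)` over the residue classes of
`j` modulo `p` are algebraic. For `p = 0`, and also for `p > 2 n`, this is the conjecture C for `X`.

So for every function `f` of the weight which is not periodic, the algebraicity of one universal
operator implies conjecture C; for `f` with values `0` and `1` this means that the projector onto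
the part of the cohomology in any fixed set of weights which is not periodic (one weight, finitely
many weights, all positive weights, the squares, …) is as good as all the Künneth projectors. The
periodic functions give the conjectures C modulo `p`, among them the sign conjecture for `p = 2`.

For the proof, the functions `g` for which the multiplication by `g i` on `H^i(X)` is algebraic form
an algebra with unit which is stable under `g(i) ↦ g(2 n - i)` by transposition, and the functions
for `X` are the coefficients `g(i + 2 s)` of the functions `g` for `X × P m`. An algebra of
functions on a finite set contains the characteristic functions of the classes of points which it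
does not separate.
-/

universe u v

open Pool.Agent.H914 Pool.Agent.H914.VarClass Pool.Agent.H914.VarClass.Obj Pool.Agent.TH720.LB
  Pool.Agent.R370.US Pool.Agent.R370.NK

namespace Pool.Agent.Results.MP_a60482_ag.NaturalOperators

/-- **The universal operators of Künneth type.** Let the `P m` have dimension `m` and a cohomology
like the projective spaces. (1) For every `F : ℕ → ℕ → K` and `n` there is `M` such that for all `X`
of dimension `n` the operators acting on `H^i(X × P m)` by `F (n + m) i` are algebraic for all
`m ≤ M` if and only if they are algebraic for all `m`, if and only if the projectors onto the sums
of the `H^j(X)` over the classes of the relation `Alike F n` are algebraic. (2) For every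
`f : ℤ → K` there is `p ≥ 0`, whose multiples are the periods of `f`, such that for
`F n i = f (i - n)` these statements are equivalent to the conjecture C modulo `p` for `X`. (3) For
`p = 0` or `p > 2 dim X` this is the conjecture C for `X`. -/
theorem result {k : Type u} [Field k] {𝒱 : VarClass k} {ops : CycleOps 𝒱}
    (W : WeilCohomology.{u, v} ops) (P : ℕ → 𝒱.Obj) (h : ∀ m, (P m).Cycles)
    (hdim : ∀ m, (P m).dim = m) (hP : ∀ m, ProjLike W (P m) (h m)) :
    (∀ (F : ℕ → ℕ → W.K) (n : ℕ), ∃ M : ℕ, ∀ X : 𝒱.Obj, X.dim = n → List.TFAE [
      ∀ m ≤ M, OnProduct W P F X m,
      ∀ m, OnProduct W P F X m,
      KunnethUpTo W X (Alike F n)]) ∧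
    (∀ f : ℤ → W.K, ∃ p : ℕ, (∀ q : ℤ, IsPeriod f q ↔ (p : ℤ) ∣ q) ∧
      ∀ n : ℕ, ∃ M : ℕ, ∀ X : 𝒱.Obj, X.dim = n → List.TFAE [
        ∀ m ≤ M, OnProduct W P (weightFun f) X m,
        ∀ m, OnProduct W P (weightFun f) X m,
        KunnethMod W X p]) ∧
    ∀ (X : 𝒱.Obj) (p : ℕ), p = 0 ∨ 2 * X.dim < p → (KunnethMod W X p ↔ KunnethSpan W X) := by
  have hproj : ∀ m, IsProjLike W (P m) (h m) := fun m => (hP m).to
  refine ⟨fun F n => general hdim hproj F n, fun f => ?_, fun X p hp => kunnethMod_iff hp⟩
  obtain ⟨p, hp⟩ := exists_period f
  exact ⟨p, hp, fun n => weights hdim hproj hp n⟩

end Pool.Agent.Results.MP_a60482_ag.NaturalOperators
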