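import Pool.Agent.R911.Sq.Geo

/-!
# One Künneth component of `X × X` decides the Künneth conjecture for `X`

Let `X` be a variety of dimension `n` over any field and `W` a Weil cohomology theory with the hard
Lefschetz theorem for some divisor on `X`. The Künneth components of the diagonal of `X`, in the
degrees `0, …, 2 n`, are all algebraic if and only if the single Künneth component of degree
`2 n - 2` (or the single one of degree `2 n + 2`) of the diagonal of `X × X` is algebraic. No
assumption is made on the other components of `X × X` or on the Betti numbers.
-/

open CategoryTheory AlgebraicGeometry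

universe u v

namespace Pool.Agent.Results.MP_a60482_ag.OneComponentOfSquare

open Pool.Agent.H914 VarClass Obj WeilCohomology Pool.Agent.R911.Kn Pool.Agent.R911.Sq

/-- **The conjecture `C(X)` is the algebraicity of a single Künneth component of `X × X`.** -/
theorem result {k : Type u} [Field k] {𝒱 : VarClass k} {ops : CycleOps 𝒱}
    (W : WeilCohomology.{u, v} ops) (X : 𝒱.Obj) (D : X.Cycles) (hD : X.IsCyc 1 D)
    (hL : HardLefschetz W X D) :
    List.TFAE [KunnethConjecture W X, KunnethConjecture W (X.prod X),
      ComponentAlgebraic W (X.prod X) (2 * X.dim - 2),
      ComponentAlgebraic W (X.prod X) (2 * X.dim + 2)] :=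
  square_tfae hD hL

end Pool.Agent.Results.MP_a60482_ag.OneComponentOfSquare
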