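import Pool.Agent.R907.ClassRank

/-!
# MP_a60482_ag: the conjecture of Künneth type and its weaker forms are equalities of ranks

Let `X` be a smooth projective variety of dimension `n` over any field and `W` any Weil cohomology theory
with coefficient field `K`. Let `r` be the dimension of the space of cycles of codimension `n` on
`X × X` with rational coefficients modulo numerical equivalence. Divide the degrees `0, ..., 2 n` into
classes such that the degrees in one class have the same parity. For a class `c` let `r_c` be the rank of
the form `(a, b) ↦ tr(a ∘ b | H_c)` on the algebraic correspondences of degree `0`, where `H_c` is the sum
of the `H^j(X)` with `j` in `c`.

**Theorem.** `r ≤ ∑ r_c`, and `r = ∑ r_c` if and only if for each class `c` the projector of `H(X)` onto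
`H_c`, i.e. the sum of the Künneth components of the diagonal in the class, is algebraic (a
`K`-linear combination of classes of cycles).

If each class has one element, then the second condition is `C(X)`. So `C(X)` is the equality of the rank
`r` and the sum of the ranks of the forms `tr(a ∘ b | H^i(X))`. For the partition into even and odd degrees
the condition is the sign conjecture. If one refines a partition, then the sum of the ranks does not
decrease, so the numbers `∑ r_c - r` measure how far the weaker forms of `C(X)` are from being true.

Proof: if the projectors are algebraic then the algebra of correspondences and the intersection form, the
alternating sum of the traces, decompose. Conversely suppose that the ranks are equal. Then the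
space of the tuples of functionals `b ↦ tr(a ∘ b | H_c)` is the product of the spaces of its components.
So there is a combination `a` of correspondences, which has on `H_c` the traces of the identity and on the
other `H_d` the traces of zero, also after multiplication by all correspondences. Hence `1 - a` is
nilpotent on `H_c` and `a` is nilpotent on the other `H_d`, and `1 - (1 - a^N)^N` is the projector for large
`N`. No positivity, no hard Lefschetz theorem and no Frobenius is used.
-/

universe u v

namespace Pool.Agent.Results.MP_a60482_ag.PartitionRanks

open Pool.Agent.H914 Pool.Agent.R907

/-- **The projectors onto the parts of the cohomology given by a partition of the degrees are algebraic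
if and only if the ranks of the trace forms of the parts add up to the rank of the correspondences modulo
numerical equivalence.** -/
theorem result {k : Type u} [Field k] {𝒱 : VarClass k} {ops : CycleOps 𝒱}
    (W : WeilCohomology.{u, v} ops) (X : 𝒱.Obj) {m : ℕ} {t : ℕ → ℕ}
    (ht : IsParityPartition X m t) :
    RankAtMostClassSum W X m t ∧ (ClassesAlgebraic W X m t ↔ RankEqualsClassSum W X m t) :=
  class_rank' W X ht

end Pool.Agent.Results.MP_a60482_ag.PartitionRanks
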